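import Pool.Agent.Lib.MP_df17e9_nt.KMain

/-! Hypothesis K-star for almost all integer polynomials x^k + (arbitrary fixed terms of degree
between r+1 and k-1) + (random terms of degree at most r), where (r+1)(r+2) is at least 2k. -/

namespace Pool.Agent.Results.MP_df17e9_nt.KStarInteger

open Finset

/-- f(x) = x^k + sum_{r < j < k} c_j x^j + sum_{1 <= j <= r} a_j x^j (here a_j is `a (j-1)`) -/
def f (k r : ℕ) (c : ℕ → ℤ) (a : Fin r → ℤ) (x : ℤ) : ℤ :=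
  x ^ k + ∑ j ∈ Ioo r k, c j * x ^ j + ∑ j : Fin r, a j * x ^ ((j : ℕ) + 1)

/-- the k-tuples of positive integers x with f(x_1) + ... + f(x_k) = n -/
def Reps (k r : ℕ) (c : ℕ → ℤ) (a : Fin r → ℤ) (n : ℕ) : Set (Fin k → ℕ) :=
  {x | (∀ i, 0 < x i) ∧ ∑ i, f k r c a (x i) = (n : ℤ)}

/-- the integer vectors (a_1, ..., a_r) with |a_j| <= N^((k-j)/k) -/
def Box (k r N : ℕ) : Set (Fin r → ℤ) :=
  {a | ∀ j : Fin r, |a j| ^ k ≤ (N : ℤ) ^ (k - ((j : ℕ) + 1))}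

/-- the mean square of the number of representations is small for all M in [N^(1-δ), N^(1+δ)] -/
def Good (k r : ℕ) (c : ℕ → ℤ) (N : ℕ) (δ ε : ℝ) (a : Fin r → ℤ) : Prop :=
  ∀ M : ℕ, (N : ℝ) ^ (1 - δ) ≤ M → (M : ℝ) ≤ (N : ℝ) ^ (1 + δ) →
    ∑ n ∈ Icc 1 M, ((Reps k r c a n).ncard : ℝ) ^ 2 ≤ (M : ℝ) ^ (1 + ε)

lemma Reps_eq (k r : ℕ) (c : ℕ → ℤ) (a : Fin r → ℤ) (n : ℕ) : Reps k r c a n = KInt.reps k r c a n := by
  have h : Ioo r k = Ico (r + 1) k := by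
    ext j; rw [mem_Ioo, mem_Ico]; omega
  unfold Reps KInt.reps f KInt.val
  rw [h]

theorem result : ∀ k r : ℕ, 3 ≤ k → r + 2 ≤ k → 2 * k ≤ (r + 1) * (r + 2) →
    ∀ ε : ℝ, 0 < ε → ∃ δ C : ℝ, 0 < δ ∧ ∀ N : ℕ, 1 ≤ N → ∀ c : ℕ → ℤ,
      (∀ j ∈ Ioo r k, |c j| ^ k ≤ (N : ℤ) ^ (k - j)) →
      (∀ (a : Fin r → ℤ) (n : ℕ), (Reps k r c a n).Finite) ∧
      (Box k r N).Finite ∧
      ({a | a ∈ Box k r N ∧ ¬ Good k r c N δ ε a}.ncard : ℝ)
        ≤ C * (N : ℝ) ^ (-δ) * ((Box k r N).ncard : ℝ) := by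
  intro k r hk hrk hr ε hε
  obtain ⟨δ, C, hδ, h⟩ := KInt.main k r hk hrk hr (min ε 1) (lt_min hε one_pos) (min_le_right _ _)
  refine ⟨δ, C, hδ, fun N hN c hc => ⟨?_, ?_, ?_⟩⟩
  · intro a n
    rw [Reps_eq]
    exact KInt.reps_finite k r (by omega) hrk c a n
  · have hNR : (1:ℝ) ≤ N := by exact_mod_cast hN
    have hYN : ((N:ℝ) ^ (1 / (k:ℝ))) ^ k = N := by
      rw [← Real.rpow_natCast, ← Real.rpow_mul (by linarith), one_div,
        inv_mul_cancel₀ (by positivity), Real.rpow_one]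
    unfold Box
    rw [KInt.box_eq k r N (by omega) ((N:ℝ) ^ (1 / (k:ℝ))) (by positivity) hYN]
    exact Finset.finite_toSet _
  · have hIoo : Ioo r k = Ico (r + 1) k := by
      ext j; rw [mem_Ioo, mem_Ico]; omega
    have h1 := h N hN c (fun j hj => hc j (by rw [hIoo]; exact hj))
    have hset : {a | a ∈ Box k r N ∧ ¬ Good k r c N δ ε a} ⊆
        {a : Fin r → ℤ | (∀ j : Fin r, |a j| ^ k ≤ (N : ℤ) ^ (k - ((j : ℕ) + 1))) ∧
          KInt.bad k r c N δ (min ε 1) a} := by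
      rintro a ⟨ha, hg⟩
      refine ⟨ha, ?_⟩
      unfold Good at hg
      push Not at hg
      obtain ⟨M, hM1, hM2, hM3⟩ := hg
      refine ⟨M, hM1, hM2, ?_⟩
      have hNR : (1:ℝ) ≤ N := by exact_mod_cast hN
      have hM0 : (0:ℝ) < M := lt_of_lt_of_le (by positivity) hM1
      have hM1' : (1:ℝ) ≤ M := by
        have : 0 < M := by exact_mod_cast hM0
        exact_mod_cast this
      have h2 : (M:ℝ) ^ (1 + min ε 1) ≤ (M:ℝ) ^ (1 + ε) :=
        Real.rpow_le_rpow_of_exponent_le hM1' (by linarith [min_le_left ε 1])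
      refine lt_of_le_of_lt h2 ?_
      push_cast
      simp only [← Reps_eq]
      exact hM3
    have hfin : {a : Fin r → ℤ | (∀ j : Fin r, |a j| ^ k ≤ (N : ℤ) ^ (k - ((j : ℕ) + 1))) ∧
          KInt.bad k r c N δ (min ε 1) a}.Finite := by
      have hNR : (1:ℝ) ≤ N := by exact_mod_cast hN
      have hYN : ((N:ℝ) ^ (1 / (k:ℝ))) ^ k = N := by
        rw [← Real.rpow_natCast, ← Real.rpow_mul (by linarith), one_div,
          inv_mul_cancel₀ (by positivity), Real.rpow_one]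
      have h3 := KInt.box_eq k r N (by omega) ((N:ℝ) ^ (1 / (k:ℝ))) (by positivity) hYN
      apply Set.Finite.subset (s := {a : Fin r → ℤ | ∀ j : Fin r, |a j| ^ k ≤ (N : ℤ) ^ (k - ((j : ℕ) + 1))})
      · rw [h3]; exact Finset.finite_toSet _
      · intro a ha; exact ha.1
    have h4 : ({a | a ∈ Box k r N ∧ ¬ Good k r c N δ ε a}.ncard : ℝ) ≤
        ({a : Fin r → ℤ | (∀ j : Fin r, |a j| ^ k ≤ (N : ℤ) ^ (k - ((j : ℕ) + 1))) ∧
          KInt.bad k r c N δ (min ε 1) a}.ncard : ℝ) := by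
      exact_mod_cast Set.ncard_le_ncard hset hfin
    exact h4.trans h1

end Pool.Agent.Results.MP_df17e9_nt.KStarInteger
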