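import Pool.Agent.Lib.MP_2fa62b_M.KStar
import Pool.Agent.Lib.MP_2fa62b_M.BroadNarrow

/-! Hypothesis K-star for almost every polynomial: for every k at least 2 and almost every
f(x) = x^k + a_{k-1} x^{k-1} + ... + a_1 x the numbers r(n) of representations of n as a sum of
k integer parts of values of f satisfy: the sum over n up to N of r(n)^2 is at most C N^(1+eps). -/

namespace Pool.Agent.Results.MP_df17e9_nt.KStarMetric

open MeasureTheory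

lemma finite_reps (k : ℕ) (hk : 2 ≤ k) (a : Fin (k - 1) → ℝ) (n : ℕ) :
    {x : Fin k → ℕ | (∀ i, 0 < x i) ∧ ∑ i, ⌊MetricHL.f k a (x i)⌋ = (n : ℤ)}.Finite := by
  obtain ⟨c, x0, hc, h⟩ := MetricHL.reps_small k hk a
  have hX := h (x0 + c * (n + 1)) (n + 1) (by omega) (by omega) (by
    have h1 : 1 ≤ x0 + c * (n + 1) := by
      have : 0 < c * (n + 1) := by positivity
      omega
    calc c * (n + 1) ≤ (x0 + c * (n + 1)) ^ 1 := by rw [pow_one]; omega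
      _ ≤ (x0 + c * (n + 1)) ^ k := Nat.pow_le_pow_right h1 (by omega)) n (by omega)
  refine (Fintype.piFinset (fun _ : Fin k => Finset.range (x0 + c * (n + 1) + 1))).finite_toSet.subset ?_
  rintro x ⟨hx1, hx2⟩
  rw [Finset.mem_coe, Fintype.mem_piFinset]
  intro i
  rw [Finset.mem_range]
  have := hX x hx1 hx2 i
  omega

theorem result : ∀ k : ℕ, 2 ≤ k → ∀ᵐ a : Fin (k - 1) → ℝ,
    (∀ n : ℕ, {x : Fin k → ℕ | (∀ i, 0 < x i) ∧
      ∑ i, ⌊(x i : ℝ) ^ k + ∑ j : Fin (k - 1), a j * (x i : ℝ) ^ ((j : ℕ) + 1)⌋ = (n : ℤ)}.Finite) ∧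
    ∀ ε : ℝ, 0 < ε → ∃ C : ℝ, ∀ N : ℕ, 1 ≤ N →
      ∑ n ∈ Finset.Icc 1 N, ({x : Fin k → ℕ | (∀ i, 0 < x i) ∧
        ∑ i, ⌊(x i : ℝ) ^ k + ∑ j : Fin (k - 1), a j * (x i : ℝ) ^ ((j : ℕ) + 1)⌋ = (n : ℤ)}.ncard : ℝ) ^ 2
        ≤ C * (N : ℝ) ^ (1 + ε) := by
  intro k hk
  have hK := MetricHL.kstar_of k hk (fun A hA ε hε => MetricHL.BN.mean_full k hk A hA ε hε)
  filter_upwards [hK] with a ha
  refine ⟨fun n => finite_reps k hk a n, fun ε hε => ?_⟩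
  obtain ⟨C, hC⟩ := ha ε hε
  refine ⟨|C| * 2 ^ (1 + ε), fun N hN => ?_⟩
  have h1 := hC (N + 1) (by omega)
  have hNr : (1:ℝ) ≤ N := by exact_mod_cast hN
  calc ∑ n ∈ Finset.Icc 1 N, ({x : Fin k → ℕ | (∀ i, 0 < x i) ∧
        ∑ i, ⌊(x i : ℝ) ^ k + ∑ j : Fin (k - 1), a j * (x i : ℝ) ^ ((j : ℕ) + 1)⌋ = (n : ℤ)}.ncard : ℝ) ^ 2
      = ∑ n ∈ Finset.Icc 1 N, ((MetricHL.rr (fun x => MetricHL.f k a x) k n : ℕ) : ℝ) ^ 2 := rfl
    _ ≤ ∑ n ∈ Finset.range (N + 1), ((MetricHL.rr (fun x => MetricHL.f k a x) k n : ℕ) : ℝ) ^ 2 := by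
        apply Finset.sum_le_sum_of_subset_of_nonneg
        · intro n hn
          rw [Finset.mem_Icc] at hn
          rw [Finset.mem_range]
          omega
        · intro n _ _; positivity
    _ ≤ C * ((N + 1 : ℕ) : ℝ) ^ (1 + ε) := h1
    _ ≤ |C| * ((2:ℝ) * N) ^ (1 + ε) := by
        apply mul_le_mul (le_abs_self C) _ (by positivity) (abs_nonneg C)
        apply Real.rpow_le_rpow (by positivity) _ (by positivity)
        push_cast
        linarith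
    _ = |C| * 2 ^ (1 + ε) * (N : ℝ) ^ (1 + ε) := by
        rw [Real.mul_rpow (by norm_num) (by positivity)]; ring

end Pool.Agent.Results.MP_df17e9_nt.KStarMetric
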