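import Pool.Agent.Lib.MP_df17e9_nt.TxI

/-! Hypothesis K-star for x_1^k + ... + x_k^k + a_3 x_3 + ... + a_k x_k: two of the k-th powers are
exact, the other k - 2 are perturbed by linear terms with almost all integer coefficients a_i in
intervals of length 2H, where H lies between N^((k-2)/k) and N^((k-1)/k). -/

namespace Pool.Agent.Results.MP_df17e9_nt.TwoExactPowers

open Finset

/-- x_1^k + ... + x_k^k + (a_1 x_1 + ... + a_k x_k) -/
def Value (k : ℕ) (a : Fin k → ℤ) (x : Fin k → ℕ) : ℤ :=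
  ∑ i, (x i : ℤ) ^ k + ∑ i, a i * (x i : ℤ)

/-- the k-tuples of positive integers with value n -/
def Reps (k : ℕ) (a : Fin k → ℤ) (n : ℕ) : Set (Fin k → ℕ) :=
  {x | (∀ i, 0 < x i) ∧ Value k a x = (n : ℤ)}

/-- the integer vectors with a_1 = a_2 = 0 and |a_i - b_i| <= H for the other i -/
def Box (k H : ℕ) (b : Fin k → ℤ) : Set (Fin k → ℤ) :=
  {a | ∀ i : Fin k, if (i : ℕ) < 2 then a i = 0 else |a i - b i| ≤ (H : ℤ)}

/-- the mean square of the number of representations is small for all M in [N^(1-δ), N^(1+δ)] -/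
def Good (k N : ℕ) (δ ε : ℝ) (a : Fin k → ℤ) : Prop :=
  ∀ M : ℕ, (N : ℝ) ^ (1 - δ) ≤ M → (M : ℝ) ≤ (N : ℝ) ^ (1 + δ) →
    ∑ n ∈ Icc 1 M, ((Reps k a n).ncard : ℝ) ^ 2 ≤ (M : ℝ) ^ (1 + ε)

lemma Reps_eq (k : ℕ) (a : Fin k → ℤ) (n : ℕ) : Reps k a n = KTwo.reps k a n := by
  unfold Reps KTwo.reps Value KTwo.val
  simp only [sum_add_distrib]

theorem result : ∀ k : ℕ, 3 ≤ k → ∀ ε : ℝ, 0 < ε → ∃ δ C : ℝ, 0 < δ ∧
    ∀ N H : ℕ, 1 ≤ N → N ^ (k - 2) ≤ H ^ k → H ^ k ≤ N ^ (k - 1) →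
      ∀ b : Fin k → ℤ, (∀ i, |b i| ^ k ≤ (N : ℤ) ^ (k - 1)) →
      (∀ (a : Fin k → ℤ) (n : ℕ), (Reps k a n).Finite) ∧
      (Box k H b).ncard = (2 * H + 1) ^ (k - 2) ∧
      ({a | a ∈ Box k H b ∧ ¬ Good k N δ ε a}.ncard : ℝ) ≤
        C * (N : ℝ) ^ (-δ) * ((Box k H b).ncard : ℝ) := by
  intro k hk ε hε
  obtain ⟨δ, C, hδ, h⟩ := KTwo.main k hk (min ε 1) (lt_min hε one_pos) (min_le_right _ _)
  refine ⟨δ, C, hδ, fun N H hN h1 h2 b hb => ⟨?_, ?_, ?_⟩⟩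
  · intro a n
    rw [Reps_eq]
    exact KTwo.reps_finite (by omega) a n
  · obtain ⟨m, rfl⟩ : ∃ m, k = m + 2 := ⟨k - 2, by omega⟩
    show (KTwo.box (m + 2) H b).ncard = _
    rw [← KTwo.coe_boxF, Set.ncard_coe_finset, KTwo.card_boxF]
    congr 1
  · have h3 := h N H hN h1 h2 b hb
    have hset : {a | a ∈ Box k H b ∧ ¬ Good k N δ ε a} ⊆
        {a | a ∈ KTwo.box k H b ∧ KTwo.bad k N δ (min ε 1) a} := by
      rintro a ⟨ha, hg⟩
      refine ⟨ha, ?_⟩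
      unfold Good at hg
      push Not at hg
      obtain ⟨M, hM1, hM2, hM3⟩ := hg
      refine ⟨M, hM1, hM2, ?_⟩
      have hM0 : (0 : ℝ) < M := lt_of_lt_of_le (by positivity) hM1
      have hM1' : (1 : ℝ) ≤ M := by
        have : 0 < M := by exact_mod_cast hM0
        exact_mod_cast this
      have h4 : (M : ℝ) ^ (1 + min ε 1) ≤ (M : ℝ) ^ (1 + ε) :=
        Real.rpow_le_rpow_of_exponent_le hM1' (by linarith [min_le_left ε 1])
      refine lt_of_le_of_lt h4 ?_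
      push_cast
      simp only [← Reps_eq]
      exact hM3
    have hfin : {a | a ∈ KTwo.box k H b ∧ KTwo.bad k N δ (min ε 1) a}.Finite := by
      obtain ⟨m, rfl⟩ : ∃ m, k = m + 2 := ⟨k - 2, by omega⟩
      refine Set.Finite.subset (s := KTwo.box (m + 2) H b) ?_ fun a ha => ha.1
      rw [← KTwo.coe_boxF]
      exact Finset.finite_toSet _
    have h4 : ({a | a ∈ Box k H b ∧ ¬ Good k N δ ε a}.ncard : ℝ) ≤
        ({a | a ∈ KTwo.box k H b ∧ KTwo.bad k N δ (min ε 1) a}.ncard : ℝ) := by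
      exact_mod_cast Set.ncard_le_ncard hset hfin
    exact h4.trans h3

end Pool.Agent.Results.MP_df17e9_nt.TwoExactPowers
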