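import Pool.Agent.Lib.MP_df17e9_nt.SxG

/-! Hypothesis K-star for x_1^k + x_2^k + floor((z_1 + θ_1)^k) + ... + floor((z_(k-2) + θ_(k-2))^k)
and almost all real shifts θ: two of the k-th powers are exact. -/

namespace Pool.Agent.Results.MP_df17e9_nt.TwoExactShifted

open Finset MeasureTheory

/-- two positive integers x_1, x_2 and m integers z_1, ..., z_m with z_j + θ_j > 0 and
x_1^k + x_2^k + floor((z_1 + θ_1)^k) + ... + floor((z_m + θ_m)^k) = n -/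
def Reps (k m : ℕ) (θ : Fin m → ℝ) (n : ℕ) : Set ((Fin 2 → ℕ) × (Fin m → ℤ)) :=
  {p | (∀ i, 0 < p.1 i) ∧ (∀ j, 0 < (p.2 j : ℝ) + θ j) ∧
    ∑ i, (p.1 i : ℤ) ^ k + ∑ j, ⌊((p.2 j : ℝ) + θ j) ^ k⌋ = (n : ℤ)}

lemma aux {k m : ℕ} (hk : 3 ≤ k) (hm : 1 ≤ m) : ∀ᵐ θ : Fin m → ℝ,
    (∀ n, (Reps k m θ n).Finite) ∧ ∀ ε : ℝ, 0 < ε → ∃ C : ℝ, ∀ N : ℕ, 1 ≤ N →
      ∑ n ∈ Icc 1 N, ((Reps k m θ n).ncard : ℝ) ^ 2 ≤ C * (N : ℝ) ^ ε *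
        ((N : ℝ) ^ (((m : ℝ) + 2) / k) + (N : ℝ) ^ (2 * ((m : ℝ) + 2) / k - 1)) := by
  filter_upwards [KShift.main_shift k m hk hm] with θ hθ
  refine ⟨hθ.1, fun ε hε => ?_⟩
  obtain ⟨C, hC⟩ := hθ.2 ε hε
  refine ⟨C, fun N hN => le_trans ?_ (hC N hN)⟩
  push_cast
  refine sum_le_sum_of_subset_of_nonneg ?_ fun _ _ _ => by positivity
  intro n hn
  rw [mem_Icc] at hn
  exact mem_range.2 (by omega)

theorem result :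
    (∀ k : ℕ, 3 ≤ k → ∀ᵐ θ : Fin (k - 2) → ℝ, (∀ n, (Reps k (k - 2) θ n).Finite) ∧
      ∀ ε : ℝ, 0 < ε → ∃ C : ℝ, ∀ N : ℕ, 1 ≤ N →
        ∑ n ∈ Icc 1 N, ((Reps k (k - 2) θ n).ncard : ℝ) ^ 2 ≤ C * (N : ℝ) ^ (1 + ε)) ∧
    (∀ k m : ℕ, 3 ≤ k → 1 ≤ m → ∀ᵐ θ : Fin m → ℝ, (∀ n, (Reps k m θ n).Finite) ∧
      ∀ ε : ℝ, 0 < ε → ∃ C : ℝ, ∀ N : ℕ, 1 ≤ N →
        ∑ n ∈ Icc 1 N, ((Reps k m θ n).ncard : ℝ) ^ 2 ≤ C * (N : ℝ) ^ ε *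
          ((N : ℝ) ^ (((m : ℝ) + 2) / k) + (N : ℝ) ^ (2 * ((m : ℝ) + 2) / k - 1))) := by
  refine ⟨fun k hk => ?_, fun k m hk hm => aux hk hm⟩
  filter_upwards [aux (k := k) (m := k - 2) hk (by omega)] with θ hθ
  refine ⟨hθ.1, fun ε hε => ?_⟩
  obtain ⟨C, hC⟩ := hθ.2 ε hε
  refine ⟨2 * C, fun N hN => (hC N hN).trans (le_of_eq ?_)⟩
  have hN0 : (0 : ℝ) < N := by
    have : 0 < N := by omega
    exact_mod_cast this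
  have hk0 : (k : ℝ) ≠ 0 := by
    have : k ≠ 0 := by omega
    exact_mod_cast this
  have h1 : (((k - 2 : ℕ) : ℝ) + 2) = k := by
    have : k - 2 + 2 = k := by omega
    exact_mod_cast this
  have h2 : (k : ℝ) / k = 1 := div_self hk0
  have h3 : 2 * (k : ℝ) / k - 1 = 1 := by
    rw [mul_div_assoc, h2]
    norm_num
  rw [h1, h2, h3, Real.rpow_one, Real.rpow_add hN0, Real.rpow_one]
  ring

end Pool.Agent.Results.MP_df17e9_nt.TwoExactShifted
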